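import Pool.Agent.Results.MP_5f7e36_co.RainbowTransversals
import Pool.Agent.Y349.BX.Hyp

/-!
# Line transversals of boxes: sharpness for the translates of every box, rainbow theorems for
lines and for hyperplanes

For every `d ≥ 2` and for every box `Q` of `ℝ^d` there is a critical family of exactly
`h = 2^(d-1) (2d-1)` translates of `Q`: it has no line transversal, but all its proper subfamilies
have one. So `h` is sharp, even for the translates of a single box, for example of a cube.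

In the other direction, Santaló's theorems are extended to arbitrary (infinite) families of closed,
possibly degenerate boxes and to the rainbow (colourful) setting, for lines with `h` colours and for
hyperplanes with `2^(d-1) (d+1)` colours.
-/

namespace Pool.Agent.Results.MP_de9148_co.TranslatesAndRainbow

/-- A closed box `∏ [a i, b i]` with `a i ≤ b i`, possibly degenerate. -/
def IsClosedBox {d : ℕ} (B : Set (Fin d → ℝ)) : Prop :=
  ∃ a b : Fin d → ℝ, (∀ i, a i ≤ b i) ∧ B = {x | ∀ i, a i ≤ x i ∧ x i ≤ b i}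

/-- A box `∏ [a i, b i]` with `a i < b i`. -/
def IsBox {d : ℕ} (B : Set (Fin d → ℝ)) : Prop :=
  ∃ a b : Fin d → ℝ, (∀ i, a i < b i) ∧ B = {x | ∀ i, a i ≤ x i ∧ x i ≤ b i}

/-- `B` is a translate of `Q`. -/
def IsTranslate {d : ℕ} (Q B : Set (Fin d → ℝ)) : Prop :=
  ∃ x : Fin d → ℝ, B = {y | y - x ∈ Q}

/-- Property `T`: some line `{p + t v}` (`v ≠ 0`) meets every member of `F`. -/
def HasLineTransversal {d : ℕ} (F : Set (Set (Fin d → ℝ))) : Prop :=
  ∃ p v : Fin d → ℝ, v ≠ 0 ∧ ∀ B ∈ F, ∃ t : ℝ, p + t • v ∈ B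

/-- Property `T(m)`: every subfamily with at most `m` members has a line transversal. -/
def PropertyT {d : ℕ} (F : Set (Set (Fin d → ℝ))) (m : ℕ) : Prop :=
  ∀ G ⊆ F, G.Finite → G.ncard ≤ m → HasLineTransversal G

/-- Some hyperplane `{x | ∑ u i * x i = e}` (`u ≠ 0`) meets every member of `F`. -/
def HasHyperplaneTransversal {d : ℕ} (F : Set (Set (Fin d → ℝ))) : Prop :=
  ∃ (u : Fin d → ℝ) (e : ℝ), u ≠ 0 ∧ ∀ B ∈ F, ∃ x ∈ B, ∑ i, u i * x i = e

lemma isCompact_of_closedBox {d : ℕ} {B : Set (Fin d → ℝ)} (h : IsClosedBox B) : IsCompact B :=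
  Pool.Agent.Results.MP_5f7e36_co.RainbowTransversals.isCompact_of_closedBox h

/-- the critical families -/
theorem critical {n : ℕ} (hn : 0 < n) {Q : Set (Fin (n+1) → ℝ)} (hQ : IsBox Q) :
    ∃ F : Set (Set (Fin (n+1) → ℝ)), (∀ B ∈ F, IsTranslate Q B) ∧ F.Finite ∧
      F.ncard = 2 ^ n * (2 * n + 1) ∧ ¬ HasLineTransversal F ∧
      ∀ G, G ⊂ F → HasLineTransversal G := by
  classical
  obtain ⟨a, b, hab, rfl⟩ := hQ
  obtain ⟨K, hK, x, hcard, h1, h2⟩ := Pool.Agent.Y349.BX.translates hn a b hab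
  set Bx : K → Set (Fin (n+1) → ℝ) := fun k =>
    {y : Fin (n+1) → ℝ | y - x k ∈ {x | ∀ i, a i ≤ x i ∧ x i ≤ b i}} with hBx
  have hin : ∀ (p v : Fin (n+1) → ℝ) (t : ℝ) (k : K), p + t • v ∈ Bx k ↔
      ∀ i, a i ≤ p i + t * v i - x k i ∧ p i + t * v i - x k i ≤ b i := by
    intro p v t k
    simp only [hBx, Set.mem_ofPred_eq, Pi.sub_apply, Pi.add_apply, Pi.smul_apply, smul_eq_mul]
  have hinj : Function.Injective Bx := by
    intro k k' hkk
    by_contra hne
    obtain ⟨p, v, hv, h⟩ := h1 k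
    refine h2 ⟨p, v, hv, fun j => ?_⟩
    by_cases hj : j = k
    · obtain ⟨t, ht⟩ := h k' (Ne.symm hne)
      refine ⟨t, ?_⟩
      rw [hj]
      rw [← hin p v t k, hkk]
      exact (hin p v t k').2 ht
    · exact h j hj
  refine ⟨Set.range Bx, ?_, Set.finite_range _, ?_, ?_, ?_⟩
  · rintro _ ⟨k, rfl⟩
    exact ⟨x k, rfl⟩
  · rw [← Set.image_univ, Set.ncard_image_of_injective _ hinj, Set.ncard_univ,
      Nat.card_eq_fintype_card, hcard]
  · rintro ⟨p, v, hv, h⟩
    refine h2 ⟨p, v, hv, fun k => ?_⟩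
    obtain ⟨t, ht⟩ := h _ ⟨k, rfl⟩
    exact ⟨t, (hin p v t k).1 ht⟩
  · intro G hG
    obtain ⟨B0, ⟨k0, rfl⟩, hk0⟩ := Set.exists_of_ssubset hG
    obtain ⟨p, v, hv, h⟩ := h1 k0
    refine ⟨p, v, hv, fun g hg => ?_⟩
    obtain ⟨k, rfl⟩ := hG.1 hg
    have hne : k ≠ k0 := by
      rintro rfl
      exact hk0 hg
    obtain ⟨t, ht⟩ := h k hne
    exact ⟨t, (hin p v t k).2 ht⟩

/-- the rainbow theorem for hyperplanes -/
theorem hyp_upper {n : ℕ} (F : Fin (2 ^ n * (n + 2)) → Set (Set (Fin (n+1) → ℝ)))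
    (hF : ∀ i, ∀ B ∈ F i, IsClosedBox B)
    (hB : ∀ B : Fin (2 ^ n * (n + 2)) → Set (Fin (n+1) → ℝ), (∀ i, B i ∈ F i) →
      HasHyperplaneTransversal (Set.range B)) :
    ∃ i, HasHyperplaneTransversal (F i) := by
  classical
  by_contra hcon
  push Not at hcon
  have h1 : ∀ i, ∃ G ⊆ F i, G.Finite ∧ ¬ HasHyperplaneTransversal G := by
    intro i
    by_contra h2
    push Not at h2
    exact hcon i (Pool.Agent.Y349.BX.hyp_compactness (F i)
      (fun B hBi => isCompact_of_closedBox (hF i B hBi)) (fun G hG hGf => h2 G hG hGf))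
  choose G hGF hGfin hG using h1
  let e : Pool.Agent.Y349.BX.HCol n ≃ Fin (2 ^ n * (n + 2)) :=
    Fintype.equivFinOfCardEq (Pool.Agent.Y349.BX.card_HCol n)
  have hft : ∀ i, Finite (G i) := fun i => (hGfin i).to_subtype
  have hbox : ∀ (c : Pool.Agent.Y349.BX.HCol n) (k : G (e c)), ∃ a b : Fin (n+1) → ℝ,
      (∀ i, a i ≤ b i) ∧ (k : Set (Fin (n+1) → ℝ)) = {x | ∀ i, a i ≤ x i ∧ x i ≤ b i} :=
    fun c k => hF _ _ (hGF _ k.2)
  choose a b hab hk using hbox
  obtain ⟨c, u, s, hu, h⟩ := Pool.Agent.Y349.BX.hyp_rainbow_fin (κ := fun c => G (e c)) a b hab (by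
    intro f
    have hmem : ∀ i, ((f (e.symm i)).1 : Set (Fin (n+1) → ℝ)) ∈ F i := by
      intro i
      have h2 := hGF _ (f (e.symm i)).2
      have h3 : F (e (e.symm i)) = F i := by rw [e.apply_symm_apply]
      rw [← h3]
      exact h2
    obtain ⟨u, s, hu, h⟩ := hB (fun i => (f (e.symm i)).1) hmem
    refine ⟨u, s, hu, fun c => ?_⟩
    have key : ∀ c', c' = c → ((f c').1 : Set (Fin (n+1) → ℝ)) = (f c).1 := by
      rintro _ rfl; rfl
    obtain ⟨x, hx, hxe⟩ := h (f c).1 ⟨e c, key _ (e.symm_apply_apply c)⟩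
    rw [hk c (f c)] at hx
    exact ⟨x, hx, hxe⟩)
  refine hG (e c) ⟨u, s, hu, fun B hBG => ?_⟩
  obtain ⟨x, hx, hxe⟩ := h ⟨B, hBG⟩
  refine ⟨x, ?_, hxe⟩
  have h4 := hk c ⟨B, hBG⟩
  simp only at h4
  rw [h4]
  exact hx

/-- For every `d ≥ 2`, with `h = 2^(d-1) (2d-1)`:

(1) for every box `Q` there is a family of exactly `h` translates of `Q` which has the property
`T(h-1)`, and even all of whose proper subfamilies have a line transversal, but which has no line
transversal;

(2) a finite or infinite family of closed boxes (degenerate boxes allowed) with the property `T(h)`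
has a line transversal;

(3) if `h` finite or infinite families of closed boxes are given and every rainbow choice of `h`
boxes has a common line transversal, then one of the families has a line transversal;

(4) if `2^(d-1) (d+1)` finite or infinite families of closed boxes are given and every rainbow
choice has a common hyperplane transversal, then one of the families has a hyperplane
transversal. -/
theorem result (d : ℕ) (hd : 2 ≤ d) :
    (∀ Q : Set (Fin d → ℝ), IsBox Q → ∃ F : Set (Set (Fin d → ℝ)),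
      (∀ B ∈ F, IsTranslate Q B) ∧ F.Finite ∧ F.ncard = 2 ^ (d - 1) * (2 * d - 1) ∧
      PropertyT F (2 ^ (d - 1) * (2 * d - 1) - 1) ∧ (∀ G, G ⊂ F → HasLineTransversal G) ∧
      ¬ HasLineTransversal F) ∧
    (∀ F : Set (Set (Fin d → ℝ)), (∀ B ∈ F, IsClosedBox B) →
      PropertyT F (2 ^ (d - 1) * (2 * d - 1)) → HasLineTransversal F) ∧
    (∀ F : Fin (2 ^ (d - 1) * (2 * d - 1)) → Set (Set (Fin d → ℝ)),
      (∀ i, ∀ B ∈ F i, IsClosedBox B) →
      (∀ B : Fin (2 ^ (d - 1) * (2 * d - 1)) → Set (Fin d → ℝ), (∀ i, B i ∈ F i) →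
        HasLineTransversal (Set.range B)) → ∃ i, HasLineTransversal (F i)) ∧
    ∀ F : Fin (2 ^ (d - 1) * (d + 1)) → Set (Set (Fin d → ℝ)),
      (∀ i, ∀ B ∈ F i, IsClosedBox B) →
      (∀ B : Fin (2 ^ (d - 1) * (d + 1)) → Set (Fin d → ℝ), (∀ i, B i ∈ F i) →
        HasHyperplaneTransversal (Set.range B)) → ∃ i, HasHyperplaneTransversal (F i) := by
  obtain ⟨n, rfl⟩ : ∃ n, d = n + 1 := ⟨d - 1, by omega⟩
  have hn : 0 < n := by omega
  have e1 : 2 * (n + 1) - 1 = 2 * n + 1 := by omega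
  have e2 : n + 1 - 1 = n := by omega
  have e3 : n + 1 + 1 = n + 2 := by omega
  rw [e1, e2, e3]
  have u4 := Pool.Agent.Results.MP_5f7e36_co.RainbowTransversals.rainbow_upper (n := n)
    (𝓑 := {B | IsClosedBox B}) (fun B hB => hB)
  refine ⟨?_, ?_, fun F hF h => u4 F hF h, hyp_upper⟩
  · intro Q hQ
    obtain ⟨F, hF, hfin, hcard, hno, hsub⟩ := critical hn hQ
    refine ⟨F, hF, hfin, hcard, ?_, hsub, hno⟩
    intro G hG _ hGc
    refine hsub G (lt_of_le_of_ne hG ?_)
    rintro rfl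
    have : 0 < 2 ^ n * (2 * n + 1) := by positivity
    omega
  · intro F hF h
    obtain ⟨_, hi⟩ := u4 (fun _ => F) (fun _ => hF) (fun B hB => h _ (by
      rintro _ ⟨i, rfl⟩
      exact hB i) (Set.finite_range _) (by
      have h3 := Set.ncard_image_le (f := B) (Set.finite_univ (α := Fin (2 ^ n * (2 * n + 1))))
      rw [Set.image_univ, Set.ncard_univ, Nat.card_eq_fintype_card, Fintype.card_fin] at h3
      exact h3))
    exact hi

end Pool.Agent.Results.MP_de9148_co.TranslatesAndRainbow
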